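import Mathlib
import Pool.Agent.H374R2.V.P4
import Pool.Agent.H374R2.V.P5
import Pool.Agent.H374R2.V.R1

/-!
Padé forms for the functions `(1 - z) ^ (j / q)`, `0 < j < q` (generalising `Pool.Agent.H374R2.V`,
where `j = 1`): size, congruence, real remainder, non-vanishing.
-/

set_option autoImplicit false

namespace Pool.Agent.U792.FC

open Finset Pool.Agent.H374R2.T Pool.Agent.H374R2.V
open Pool.Agent.H374R2.V.P2 (fact_mul_cf cf_cast cf_congr)
open Pool.Agent.H374R2.V.P4 (rad rad_dvd rad_dvd_int pow_rad)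
open Pool.Agent.H374R2.V.P5 (pc pc_gt hom_mul top_coeff det_eq choose_rec choose_pos)

theorem cf_bound {q n k : ℕ} {s : ℤ} (hq : IsPrimePow q) (hs : |s| ≤ q) (hk : k ≤ n) :
    0 ≤ cf q n s k ∧ cf q n s k ≤ (q : ℤ) ^ (2 * n) * (Nat.choose (n + 1) k : ℤ) := by
  have hk0 : (0 : ℤ) < (k.factorial : ℤ) := by exact_mod_cast Nat.factorial_pos k
  have hq2 : (2 : ℤ) ≤ q := by exact_mod_cast hq.two_le
  have h1 := fact_mul_cf (s := s) hq hk
  have hf : ∀ j ∈ range k, 0 ≤ (q : ℤ) * n + s - j * q ∧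
      (q : ℤ) * n + s - j * q ≤ q * (((n + 1 - j : ℕ) : ℤ)) := by
    intro j hj
    rw [mem_range] at hj
    have hjn : j + 1 ≤ n := by omega
    have hjn' : (j : ℤ) + 1 ≤ n := by exact_mod_cast hjn
    rw [Nat.cast_sub (by omega)]
    push_cast
    constructor
    · have := abs_le.1 hs
      nlinarith
    · have := abs_le.1 hs
      nlinarith
  have hp0 : 0 ≤ ∏ j ∈ range k, ((q : ℤ) * n + s - j * q) := prod_nonneg fun j hj => (hf j hj).1
  have hp1 : ∏ j ∈ range k, ((q : ℤ) * n + s - j * q) ≤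
      (q : ℤ) ^ k * ((k.factorial : ℤ) * (Nat.choose (n + 1) k : ℤ)) := by
    calc _ ≤ ∏ j ∈ range k, ((q : ℤ) * (((n + 1 - j : ℕ) : ℤ))) :=
          prod_le_prod (fun j hj => (hf j hj).1) (fun j hj => (hf j hj).2)
      _ = (q : ℤ) ^ k * ((∏ j ∈ range k, (n + 1 - j) : ℕ) : ℤ) := by
          rw [prod_mul_distrib, prod_const, card_range]
          push_cast
          rfl
      _ = _ := by
          rw [← Nat.descFactorial_eq_prod_range, Nat.descFactorial_eq_factorial_mul_choose]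
          push_cast
          rfl
  constructor
  · have : 0 ≤ (k.factorial : ℤ) * cf q n s k := by
      rw [h1]; positivity
    exact nonneg_of_mul_nonneg_right this hk0
  · have h2 : (k.factorial : ℤ) * cf q n s k ≤
        (k.factorial : ℤ) * ((q : ℤ) ^ (2 * n) * (Nat.choose (n + 1) k : ℤ)) := by
      rw [h1]
      calc (q : ℤ) ^ (2 * n - k) * ∏ j ∈ range k, ((q : ℤ) * n + s - j * q)
          ≤ (q : ℤ) ^ (2 * n - k) *
            ((q : ℤ) ^ k * ((k.factorial : ℤ) * (Nat.choose (n + 1) k : ℤ))) := by gcongr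
        _ = ((q : ℤ) ^ (2 * n - k) * (q : ℤ) ^ k) *
            ((k.factorial : ℤ) * (Nat.choose (n + 1) k : ℤ)) := by ring
        _ = _ := by
            rw [← pow_add, show 2 * n - k + k = 2 * n by omega]
            ring
    exact le_of_mul_le_mul_left h2 hk0

/-- Task P2, second part: size of the Padé form. -/
theorem pf_size {q n : ℕ} {s X T M : ℤ} (hq : IsPrimePow q) (hs : |s| ≤ q) (hX : |X| ≤ M)
    (hT : |T| ≤ M) : |pf q n s X T| ≤ 2 * (8 * (q : ℤ) ^ 2) ^ n * M ^ n := by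
  have hM : 0 ≤ M := (abs_nonneg X).trans hX
  unfold pf
  calc |∑ k ∈ range (n + 1), cf q n s k * (Nat.choose (2 * n - k) n : ℤ) * (-T) ^ k * X ^ (n - k)|
      ≤ ∑ k ∈ range (n + 1), |cf q n s k * (Nat.choose (2 * n - k) n : ℤ) * (-T) ^ k * X ^ (n - k)| :=
        abs_sum_le_sum_abs _ _
    _ ≤ ∑ k ∈ range (n + 1), (q : ℤ) ^ (2 * n) * 4 ^ n * M ^ n * (Nat.choose (n + 1) k : ℤ) := by
        refine sum_le_sum fun k hk => ?_
        rw [mem_range] at hk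
        have hkn : k ≤ n := by omega
        obtain ⟨c0, c1⟩ := cf_bound (s := s) hq hs hkn
        rw [abs_mul, abs_mul, abs_mul, abs_of_nonneg c0, abs_pow, abs_pow, abs_neg, Nat.abs_cast]
        have h1 : (Nat.choose (2 * n - k) n : ℤ) ≤ 4 ^ n := by
          have h2 : Nat.choose (2 * n - k) n ≤ 4 ^ n := by
            calc Nat.choose (2 * n - k) n ≤ 2 ^ (2 * n - k) := Nat.choose_le_two_pow _ _
              _ ≤ 2 ^ (2 * n) := Nat.pow_le_pow_right (by norm_num) (by omega)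
              _ = 4 ^ n := by rw [pow_mul]; norm_num
          exact_mod_cast h2
        calc cf q n s k * (Nat.choose (2 * n - k) n : ℤ) * |T| ^ k * |X| ^ (n - k)
            ≤ ((q : ℤ) ^ (2 * n) * (Nat.choose (n + 1) k : ℤ)) * 4 ^ n * M ^ k * M ^ (n - k) := by
              gcongr
          _ = ((q : ℤ) ^ (2 * n) * (Nat.choose (n + 1) k : ℤ)) * 4 ^ n * (M ^ k * M ^ (n - k)) := by
              ring
          _ = _ := by
              rw [← pow_add, show k + (n - k) = n by omega]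
              ring
    _ = (q : ℤ) ^ (2 * n) * 4 ^ n * M ^ n * ((∑ k ∈ range (n + 1), Nat.choose (n + 1) k : ℕ) : ℤ) := by
        rw [← mul_sum]
        push_cast
        rfl
    _ ≤ (q : ℤ) ^ (2 * n) * 4 ^ n * M ^ n * (2 ^ (n + 1)) := by
        have h3 : ∑ k ∈ range (n + 1), Nat.choose (n + 1) k ≤ 2 ^ (n + 1) := by
          rw [← Nat.sum_range_choose (n + 1)]
          exact sum_le_sum_of_subset (range_subset_range.2 (by omega))
        have h4 : ((∑ k ∈ range (n + 1), Nat.choose (n + 1) k : ℕ) : ℤ) ≤ 2 ^ (n + 1) := by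
          exact_mod_cast h3
        gcongr
    _ = 2 * (8 * (q : ℤ) ^ 2) ^ n * M ^ n := by
        rw [mul_pow, ← pow_mul, pow_succ]
        have : (8 : ℤ) ^ n = 2 ^ n * 4 ^ n := by rw [← mul_pow]; norm_num
        rw [this]
        ring

/-- the Padé congruence for `(1 - z) ^ (j / q)` -/
theorem pf_congr {q n d W j : ℕ} {X T u v : ℤ} (hq : IsPrimePow q) (hqd : Nat.Coprime q d)
    (hX : IsCoprime X (d : ℤ)) (hu : IsCoprime u (d : ℤ)) (hv : IsCoprime v (d : ℤ))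
    (hl : ∀ l : ℕ, l.Prime → l ∣ d → (l : ℤ) ∣ T ∧ (l : ℤ) ∣ u - v)
    (hT : (d : ℤ) ^ W ∣ T ^ (2 * n + 1)) (h : (d : ℤ) ^ W ∣ u ^ q * X ^ j - v ^ q * (X - T) ^ j) :
    (d : ℤ) ^ W ∣ v * pf q n j X T - u * pf q n (-(j : ℤ)) X T := by
  have hd : d ≠ 0 := by
    rintro rfl
    rw [Nat.coprime_zero_right] at hqd
    exact hq.one_lt.ne' hqd
  have key : ∀ a : ℤ, (d : ℤ) ^ W ∣ a ↔ ((a : ℤ) : ZMod (d ^ W)) = 0 := by
    intro a
    rw [ZMod.intCast_zmod_eq_zero_iff_dvd]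
    push_cast
    rfl
  have hunit : ∀ a : ℤ, IsCoprime a (d : ℤ) → IsUnit ((a : ℤ) : ZMod (d ^ W)) := by
    intro a ha
    rw [ZMod.coe_int_isUnit_iff_isCoprime]
    push_cast
    exact (IsCoprime.pow_left ha.symm)
  obtain ⟨X', hX'⟩ := (hunit X hX).exists_right_inv
  obtain ⟨u', hu'⟩ := (hunit u hu).exists_right_inv
  -- the inverse of `q`
  obtain ⟨t, e, hte⟩ : ∃ t e : ℕ, q * t = 1 + d ^ (W + 2 * n + d * W) * e := by
    have hc : Nat.Coprime q (d ^ (W + 2 * n + d * W)) := Nat.Coprime.pow_right _ hqd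
    rcases Nat.lt_or_ge 1 (d ^ (W + 2 * n + d * W)) with h1 | h1
    · obtain ⟨m, -, hm⟩ := Nat.exists_mul_mod_eq_one_of_coprime hc h1
      exact ⟨m, q * m / d ^ (W + 2 * n + d * W), by
        have := Nat.mod_add_div (q * m) (d ^ (W + 2 * n + d * W))
        rw [hm] at this
        exact this.symm⟩
    · have h2 : d ^ (W + 2 * n + d * W) = 1 :=
        le_antisymm h1 (Nat.one_le_iff_ne_zero.2 (pow_ne_zero _ hd))
      refine ⟨1, q - 1, ?_⟩
      have := hq.one_lt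
      rw [h2]
      omega
  set z : ZMod (d ^ W) := (T : ZMod (d ^ W)) * X' with hz
  have hzX : z * (X : ZMod (d ^ W)) = T := by
    rw [hz, mul_assoc, mul_comm X', hX', mul_one]
  have hradT : ((rad d : ℕ) : ZMod (d ^ W)) ∣ z := by
    obtain ⟨c, hc⟩ := rad_dvd_int (x := T) fun l hl1 hl2 => (hl l hl1 hl2).1
    refine ⟨(c : ZMod (d ^ W)) * X', ?_⟩
    rw [hz, hc]
    push_cast
    ring
  have hraduv : ((rad d : ℕ) : ZMod (d ^ W)) ∣ (v : ZMod (d ^ W)) - u := by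
    obtain ⟨c, hc⟩ := rad_dvd_int (x := u - v) fun l hl1 hl2 => (hl l hl1 hl2).2
    refine ⟨-(c : ZMod (d ^ W)), ?_⟩
    have := congrArg (fun a : ℤ => (a : ZMod (d ^ W))) hc
    push_cast at this
    linear_combination -this
  have hrad1 : ((rad d : ℕ) : ZMod (d ^ W)) ∣ (1 - z) - 1 := by
    have : (1 - z) - 1 = -z := by ring
    rw [this]
    exact (dvd_neg).2 hradT
  have hpow1 : (1 - z) ^ (q * t) = 1 - z := by
    have h1 : (1 - z) ^ (d ^ (d * W)) = 1 := by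
      obtain ⟨c, hc⟩ := pow_dvd_pow_of_dvd (rad_dvd d) (d * W)
      rw [hc, pow_mul, pow_rad hd _ hrad1, one_pow]
    rw [hte, pow_add, pow_one, pow_add d (W + 2 * n), mul_comm (d ^ (W + 2 * n)), mul_assoc,
      pow_mul, h1, one_pow, mul_one]
  have hmain : (v : ZMod (d ^ W)) * (1 - z) ^ (j * t) = u := by
    set w : ZMod (d ^ W) := (v : ZMod (d ^ W)) * (1 - z) ^ (j * t) * u' with hw
    have hw1 : ((rad d : ℕ) : ZMod (d ^ W)) ∣ w - 1 := by
      have e1 : w - 1 = u' * ((v : ZMod (d ^ W)) * ((1 - z) ^ (j * t) - 1 ^ (j * t)) + (v - u)) := by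
        rw [hw, one_pow]
        linear_combination hu'
      rw [e1]
      exact Dvd.dvd.mul_left (dvd_add (Dvd.dvd.mul_left (hrad1.trans (sub_dvd_pow_sub_pow _ _ (j * t))) _)
        hraduv) _
    have hw2 : w ^ (rad d ^ (d * W)) = 1 := pow_rad hd w hw1
    have hrel : (u : ZMod (d ^ W)) ^ q = (v : ZMod (d ^ W)) ^ q * (1 - z) ^ j := by
      have h1 := (key _).1 h
      push_cast at h1
      have h2 : (u : ZMod (d ^ W)) ^ q * X ^ j = (v : ZMod (d ^ W)) ^ q * (X - T) ^ j :=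
        sub_eq_zero.1 h1
      have h3 : (X : ZMod (d ^ W)) ^ j * X' ^ j = 1 := by rw [← mul_pow, hX', one_pow]
      calc (u : ZMod (d ^ W)) ^ q = (u : ZMod (d ^ W)) ^ q * X ^ j * X' ^ j := by
            rw [mul_assoc, h3, mul_one]
        _ = (v : ZMod (d ^ W)) ^ q * (X * X' - T * X') ^ j := by
            rw [h2, ← sub_mul, mul_pow, mul_assoc]
        _ = _ := by rw [hX']
    have hw3 : w ^ q = 1 := by
      have h5 : (1 - z) ^ (j * t * q) = (1 - z) ^ j := by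
        rw [show j * t * q = q * t * j by ring, pow_mul, hpow1]
      rw [hw, mul_pow, mul_pow, ← pow_mul, h5, ← hrel, ← mul_pow, hu', one_pow]
    have hc : Nat.Coprime q (rad d ^ (d * W)) :=
      Nat.Coprime.pow_right _ (Nat.Coprime.coprime_dvd_right (rad_dvd d) hqd)
    have hw4 : w = 1 := by
      have := pow_gcd_eq_one.2 ⟨hw3, hw2⟩
      rwa [hc.gcd_eq_one, pow_one] at this
    calc (v : ZMod (d ^ W)) * (1 - z) ^ (j * t) =
          (v : ZMod (d ^ W)) * (1 - z) ^ (j * t) * (u * u') := by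
          rw [hu', mul_one]
      _ = w * u := by rw [hw]; ring
      _ = u := by rw [hw4, one_mul]
  have hz0 : z ^ (2 * n + 1) = 0 := by
    have h1 := (key _).1 hT
    push_cast at h1
    rw [hz, mul_pow, h1, zero_mul]
  have hpade := Pool.Agent.H374R2.T.TaskP3.pade_ring n (j * t) z hz0
  -- the Padé forms in the ring
  have hpf : ∀ (s τ : ℤ), (d : ℤ) ^ (W + 2 * n) ∣ q * τ - s →
      ((pf q n s X T : ℤ) : ZMod (d ^ W)) = (q : ZMod (d ^ W)) ^ (2 * n) *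
        (X : ZMod (d ^ W)) ^ n * ∑ k ∈ range (n + 1),
        ((Ring.choose ((n : ℤ) + τ) k * (Nat.choose (2 * n - k) n : ℤ) : ℤ) : ZMod (d ^ W)) *
        (-z) ^ k := by
    intro s τ hs
    rw [pf, Int.cast_sum, Finset.mul_sum]
    refine Finset.sum_congr rfl fun k hk => ?_
    have hkn : k ≤ n := Nat.lt_succ_iff.1 (Finset.mem_range.1 hk)
    have h1 := (key _).1 (cf_congr hq hkn hqd hs)
    push_cast at h1
    have h2 : ((cf q n s k : ℤ) : ZMod (d ^ W)) =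
      (q : ZMod (d ^ W)) ^ (2 * n) * ((Ring.choose ((n : ℤ) + τ) k : ℤ) : ZMod (d ^ W)) :=
      sub_eq_zero.1 h1
    have h3 : (-(T : ZMod (d ^ W))) ^ k * (X : ZMod (d ^ W)) ^ (n - k) =
        (-z) ^ k * (X : ZMod (d ^ W)) ^ n := by
      rw [← hzX, ← neg_mul, mul_pow, mul_assoc, ← pow_add, Nat.add_sub_cancel' hkn]
    push_cast
    rw [h2]
    linear_combination ((q : ZMod (d ^ W)) ^ (2 * n) *
      ((Ring.choose ((n : ℤ) + τ) k : ℤ) : ZMod (d ^ W)) *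
      (Nat.choose (2 * n - k) n : ZMod (d ^ W))) * h3
  have hdvd : (d : ℤ) ^ (W + 2 * n) ∣ (q : ℤ) * t - 1 := by
    refine ⟨(d : ℤ) ^ (d * W) * e, ?_⟩
    have := congrArg (fun a : ℕ => (a : ℤ)) hte
    push_cast at this
    rw [this, pow_add]
    ring
  have hdvd' : (d : ℤ) ^ (W + 2 * n) ∣ (q : ℤ) * ((j * t : ℕ) : ℤ) - j := by
    have : (q : ℤ) * ((j * t : ℕ) : ℤ) - j = j * ((q : ℤ) * t - 1) := by push_cast; ring
    rw [this]
    exact hdvd.mul_left _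
  have hP := hpf j ((j * t : ℕ) : ℤ) hdvd'
  have hQ := hpf (-(j : ℤ)) (-((j * t : ℕ) : ℤ)) (by
    have : (q : ℤ) * (-((j * t : ℕ) : ℤ)) - (-(j : ℤ)) = -((q : ℤ) * ((j * t : ℕ) : ℤ) - j) := by ring
    rw [this]
    exact (dvd_neg).2 hdvd')
  rw [key, Int.cast_sub, Int.cast_mul, Int.cast_mul, hP, hQ, hpade,
    ← sub_eq_add_neg (n : ℤ) ((j * t : ℕ) : ℤ)]
  linear_combination ((q : ZMod (d ^ W)) ^ (2 * n) * (X : ZMod (d ^ W)) ^ n *
    ∑ k ∈ range (n + 1), ((Ring.choose ((n : ℤ) - ((j * t : ℕ) : ℤ)) k *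
      (Nat.choose (2 * n - k) n : ℤ) : ℤ) : ZMod (d ^ W)) * (-z) ^ k) * hmain

section ne

open Pool.Agent.H374R2.V.P5 (pf_cast)

theorem pf_ne_of {q j : ℕ} (hj0 : 0 < j) (hjq : j < q)
    (hcast : ∀ (n k : ℕ) (s : ℤ), k ≤ n →
      ((cf q n s k : ℤ) : ℚ) = (q : ℚ) ^ (2 * n) * Ring.choose ((n : ℚ) + s / q) k)
    (hpade : ∀ n j : ℕ, j ≤ 2 * n → ∀ t : ℚ, ∑ a ∈ range (j + 1), Ring.choose ((n : ℚ) - t) a *
      Ring.choose t (j - a) * (Nat.choose (2 * n - a) n : ℚ) =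
      Ring.choose ((n : ℚ) + t) j * (Nat.choose (2 * n - j) n : ℚ))
    {n : ℕ} {X T : ℤ} (hq : IsPrimePow q) (hT : T ≠ 0) :
    pf q n j X T * pf q (n + 1) (-(j : ℤ)) X T ≠ pf q (n + 1) j X T * pf q n (-(j : ℤ)) X T := by
  intro heq
  have hq0 : (0 : ℚ) < q := by exact_mod_cast hq.pos
  have hq1 : (1 : ℚ) < q := by exact_mod_cast hq.one_lt
  set ρ : ℚ := (j : ℚ) / (q : ℚ) with hρ
  have hj0' : (0 : ℚ) < j := by exact_mod_cast hj0
  have hjq' : (j : ℚ) < q := by exact_mod_cast hjq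
  have hρ0 : 0 < ρ := by positivity
  have hρ1 : ρ < 1 := by
    rw [hρ, div_lt_one hq0]
    exact hjq'
  have h1 : ((pf q n j X T * pf q (n + 1) (-(j : ℤ)) X T : ℤ) : ℚ) =
      ((pf q (n + 1) j X T * pf q n (-(j : ℤ)) X T : ℤ) : ℚ) := by rw [heq]
  have e1 : (((j : ℤ) : ℚ) / q) = ρ := by
    rw [hρ]
    norm_num
  have e2 : (((-(j : ℤ) : ℤ) : ℚ) / q) = -ρ := by
    rw [hρ]
    push_cast
    ring
  rw [Int.cast_mul, Int.cast_mul, pf_cast q j (fun n k h => hcast n k j h),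
    pf_cast q (-(j : ℤ)) (fun n k h => hcast n k _ h), pf_cast q j (fun n k h => hcast n k j h),
    pf_cast q (-(j : ℤ)) (fun n k h => hcast n k _ h), e1, e2] at h1
  have hqn : (q : ℚ) ^ (2 * n) * (q : ℚ) ^ (2 * (n + 1)) ≠ 0 := by positivity
  have h2 : (∑ k ∈ range (n + 1), pc n ρ k * (T : ℚ) ^ k * (X : ℚ) ^ (n - k)) *
      (∑ k ∈ range (n + 1 + 1), pc (n + 1) (-ρ) k * (T : ℚ) ^ k * (X : ℚ) ^ (n + 1 - k)) =
      (∑ k ∈ range (n + 1 + 1), pc (n + 1) ρ k * (T : ℚ) ^ k * (X : ℚ) ^ (n + 1 - k)) *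
      (∑ k ∈ range (n + 1), pc n (-ρ) k * (T : ℚ) ^ k * (X : ℚ) ^ (n - k)) := by
    apply mul_left_cancel₀ hqn
    linear_combination h1
  rw [hom_mul n (n + 1) (pc n ρ) (pc (n + 1) (-ρ)) (pc_gt n ρ) (pc_gt (n + 1) (-ρ)),
    hom_mul (n + 1) n (pc (n + 1) ρ) (pc n (-ρ)) (pc_gt (n + 1) ρ) (pc_gt n (-ρ)),
    show n + 1 + n = n + (n + 1) by ring, sum_range_succ, sum_range_succ _ (n + (n + 1))] at h2
  have h3 : ∑ j ∈ range (n + (n + 1)), (∑ p ∈ antidiagonal j, pc n ρ p.1 *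
      pc (n + 1) (-ρ) p.2) * (T : ℚ) ^ j * (X : ℚ) ^ (n + (n + 1) - j) =
      ∑ j ∈ range (n + (n + 1)), (∑ p ∈ antidiagonal j, pc (n + 1) ρ p.1 *
      pc n (-ρ) p.2) * (T : ℚ) ^ j * (X : ℚ) ^ (n + (n + 1) - j) := by
    refine sum_congr rfl fun j hj => ?_
    rw [mem_range] at hj
    rw [det_eq ρ (fun n j hj => hpade n j hj ρ) n j (by omega)]
  rw [h3] at h2
  have h4 := add_left_cancel h2
  rw [top_coeff (pc n ρ) (pc (n + 1) (-ρ)) n (n + 1) (pc_gt n ρ) (pc_gt (n + 1) (-ρ))] at h4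
  have h5 := top_coeff (pc (n + 1) ρ) (pc n (-ρ)) (n + 1) n (pc_gt (n + 1) ρ) (pc_gt n (-ρ))
  rw [show n + 1 + n = n + (n + 1) by ring] at h5
  rw [h5, Nat.sub_self, pow_zero, mul_one, mul_one] at h4
  have hT0 : (T : ℚ) ^ (n + (n + 1)) ≠ 0 := by
    apply pow_ne_zero
    exact_mod_cast hT
  have h6 := mul_right_cancel₀ hT0 h4
  -- the leading coefficients
  have hl : ∀ (m : ℕ) (x : ℚ), pc m x m = Ring.choose ((m : ℚ) + x) m * (-1) ^ m := by
    intro m x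
    rw [pc, if_pos le_rfl, show 2 * m - m = m by omega, Nat.choose_self]
    ring
  rw [hl, hl, hl, hl] at h6
  have hs : ((-1 : ℚ) ^ n * (-1) ^ (n + 1)) ≠ 0 :=
    mul_ne_zero (pow_ne_zero _ (by norm_num)) (pow_ne_zero _ (by norm_num))
  have h7 : Ring.choose ((n : ℚ) + ρ) n * Ring.choose (((n + 1 : ℕ) : ℚ) + -ρ) (n + 1) =
      Ring.choose (((n + 1 : ℕ) : ℚ) + ρ) (n + 1) * Ring.choose ((n : ℚ) + -ρ) n := by
    apply mul_left_cancel₀ hs
    linear_combination h6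
  have r1 := choose_rec n ρ
  have r2 := choose_rec n (-ρ)
  have p1 := choose_pos ρ (by linarith) n
  have p2 := choose_pos (-ρ) (by linarith) n
  have h8 : Ring.choose ((n : ℚ) + ρ) n *
      (((n : ℚ) + 1) * Ring.choose (((n + 1 : ℕ) : ℚ) + -ρ) (n + 1)) =
      (((n : ℚ) + 1) * Ring.choose (((n + 1 : ℕ) : ℚ) + ρ) (n + 1)) *
        Ring.choose ((n : ℚ) + -ρ) n := by
    linear_combination ((n : ℚ) + 1) * h7
  rw [r1, r2] at h8
  have h9 : Ring.choose ((n : ℚ) + ρ) n * Ring.choose ((n : ℚ) + -ρ) n * ρ = 0 := by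
    linear_combination (-1 / 2 : ℚ) * h8
  have h10 : 0 < Ring.choose ((n : ℚ) + ρ) n * Ring.choose ((n : ℚ) + -ρ) n * ρ := by positivity
  linarith

/-- non-vanishing of the consecutive determinant -/
theorem pf_ne {q n j : ℕ} {X T : ℤ} (hq : IsPrimePow q) (hj0 : 0 < j) (hjq : j < q) (hT : T ≠ 0) :
    pf q n j X T * pf q (n + 1) (-(j : ℤ)) X T ≠ pf q (n + 1) j X T * pf q n (-(j : ℤ)) X T :=
  pf_ne_of hj0 hjq (fun _ _ _ hk => cf_cast hq hk)
    (fun n j hj t => Pool.Agent.H374R2.T.TaskP1.pade_coeff n j hj t) hq hT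

end ne

section re

open Pool.Agent.H374R2.V.R1 (pf_cast bb rem)

/-- the remainder of the Padé approximation of `(1 - z) ^ (j / q)` over the reals -/
theorem pf_real {q n j : ℕ} {X T : ℤ} (hq : IsPrimePow q) (hj0 : 0 < j) (hjq : j < q) (hX : 0 < X) (hT : 3 * |T| ≤ X) :
    |((pf q n j X T : ℤ) : ℝ) - (1 - (T : ℝ) / X) ^ ((j : ℝ) / q) * ((pf q n (-(j : ℤ)) X T : ℤ) : ℝ)| ≤
      2 * (8 * (q : ℝ) ^ 2) ^ n * (X : ℝ) ^ n * |(T : ℝ) / X| ^ (2 * n + 1) := by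
  have hX' : (0 : ℝ) < X := by exact_mod_cast hX
  have hq2 : (2 : ℝ) ≤ q := by exact_mod_cast hq.two_le
  have hT' : 3 * |(T : ℝ)| ≤ X := by exact_mod_cast hT
  have hj0' : (0 : ℝ) < j := by exact_mod_cast hj0
  have hjq' : (j : ℝ) < q := by exact_mod_cast hjq
  set t : ℝ := (j : ℝ) / q with ht
  have h0 : 0 < t := by positivity
  have h1 : t < 1 := by
    rw [ht, div_lt_one (by linarith)]
    exact hjq'
  set w : ℝ := -((T : ℝ) / X) with hw
  have hwa : |w| = |(T : ℝ) / X| := by rw [hw, abs_neg]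
  have hw3 : |w| ≤ 1 / 3 := by
    rw [hwa, abs_div, abs_of_pos hX', div_le_div_iff₀ hX' (by norm_num)]
    linarith
  have e1 := pf_cast (n := n) (s := j) (T := T) hq hX
  have e2 := pf_cast (n := n) (s := -(j : ℤ)) (T := T) hq hX
  have e3 : (n : ℝ) + ((j : ℤ) : ℝ) / q = (n : ℝ) + t := by rw [ht]; simp
  have e4 : (n : ℝ) + ((-(j : ℤ) : ℤ) : ℝ) / q = (n : ℝ) - t := by rw [ht]; push_cast; ring
  rw [e3, ← hw] at e1
  rw [e4, ← hw] at e2
  have hr := rem (n := n) h0 h1 hw3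
  have e5 : (1 : ℝ) - (T : ℝ) / X = 1 + w := by rw [hw]; ring
  rw [e1, e2, e5, ← hwa]
  set P := ∑ k ∈ range (n + 1), bb n ((n : ℝ) + t) k * w ^ k
  set Q := ∑ k ∈ range (n + 1), bb n ((n : ℝ) - t) k * w ^ k
  have e6 : (q : ℝ) ^ (2 * n) * (X : ℝ) ^ n * P - (1 + w) ^ t * ((q : ℝ) ^ (2 * n) * (X : ℝ) ^ n * Q)
      = ((q : ℝ) ^ (2 * n) * (X : ℝ) ^ n) * (P - (1 + w) ^ t * Q) := by ring
  have hc : 0 ≤ (q : ℝ) ^ (2 * n) * (X : ℝ) ^ n := by positivity
  rw [e6, abs_mul, abs_of_nonneg hc]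
  calc (q : ℝ) ^ (2 * n) * (X : ℝ) ^ n * |P - (1 + w) ^ t * Q|
      ≤ (q : ℝ) ^ (2 * n) * (X : ℝ) ^ n * ((3 / 2) * 8 ^ n * |w| ^ (2 * n + 1)) :=
        mul_le_mul_of_nonneg_left hr hc
    _ ≤ (q : ℝ) ^ (2 * n) * (X : ℝ) ^ n * (2 * 8 ^ n * |w| ^ (2 * n + 1)) := by
        gcongr
        norm_num
    _ = 2 * (8 * (q : ℝ) ^ 2) ^ n * (X : ℝ) ^ n * |w| ^ (2 * n + 1) := by
        rw [mul_pow, ← pow_mul]
        ring

end re

end Pool.Agent.U792.FC
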