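import Mathlib
import Pool.Agent.U792.FC.Pade

/-!
The linear form `w ^ j a ^ K P - c Q` for `a ^ n + b ^ n = c ^ q`, `a + b = w ^ q`, `n = q K + j`:
divisibility by powers of the divisors of `b` without prime factors `≡ 0, 1 (mod q)`.
-/

set_option autoImplicit false

namespace Pool.Agent.U792.FC

open Finset Pool.Agent.H374R2.T

/-- the data -/
structure Dat (q n K j : ℕ) (a b c w : ℤ) : Prop where
  hq : q.Prime
  hn : n = q * K + j
  hj0 : 0 < j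
  hjq : j < q
  hab : IsCoprime a b
  ha : a ≠ 0
  hb : b ≠ 0
  hw0 : w ≠ 0
  heq : a ^ n + b ^ n = c ^ q
  hw : a + b = w ^ q

/-- the linear form -/
def lam (q K j N : ℕ) (a b c w : ℤ) : ℤ :=
  w ^ j * a ^ K * pf q N j (w ^ q) b - c * pf q N (-(j : ℤ)) (w ^ q) b

/-- `q`-th roots modulo `l` are unique if `q` is prime to `l - 1` -/
theorem root_eq {l q : ℕ} (hl : l.Prime) (hq : Nat.Coprime q (l - 1)) {u v : ℤ}
    (hu : ¬ (l : ℤ) ∣ u) (hv : ¬ (l : ℤ) ∣ v) (h : (l : ℤ) ∣ u ^ q - v ^ q) : (l : ℤ) ∣ u - v := by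
  have := Fact.mk hl
  have hu' : ((u : ℤ) : ZMod l) ≠ 0 := by rwa [Ne, ZMod.intCast_zmod_eq_zero_iff_dvd]
  have hv' : ((v : ℤ) : ZMod l) ≠ 0 := by rwa [Ne, ZMod.intCast_zmod_eq_zero_iff_dvd]
  rw [← ZMod.intCast_zmod_eq_zero_iff_dvd] at h ⊢
  push_cast at h ⊢
  rw [sub_eq_zero] at h ⊢
  have h1 : ((u : ZMod l) / v) ^ q = 1 := by rw [div_pow, h, div_self (pow_ne_zero _ hv')]
  have h2 : ((u : ZMod l) / v) ^ (l - 1) = 1 :=
    ZMod.pow_card_sub_one_eq_one (div_ne_zero hu' hv')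
  have h3 := pow_gcd_eq_one.2 ⟨h1, h2⟩
  rw [hq.gcd_eq_one, pow_one, div_eq_one_iff_eq hv'] at h3
  exact h3

theorem Dat.hK {q n K j : ℕ} {a b c w : ℤ} (D : Dat q n K j a b c w) : 0 < n := by
  have := D.hn; have := D.hj0; omega

theorem lam_dvd {q n K j : ℕ} {a b c w : ℤ} (D : Dat q n K j a b c w) {d : ℕ} (hd : (d : ℤ) ∣ b)
    (hl : ∀ l : ℕ, l.Prime → l ∣ d → l ≠ q ∧ ¬ q ∣ l - 1) {W N : ℕ} (hWn : W ≤ n)
    (hWN : W ≤ 2 * N + 1) : (d : ℤ) ^ W ∣ lam q K j N a b c w := by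
  obtain ⟨hq, hn, hj0, hjq, hab, ha, hb, hw0, heq, hw⟩ := D
  have hn0 : 0 < n := by omega
  have hd0 : d ≠ 0 := by
    rintro rfl
    rw [Nat.cast_zero, zero_dvd_iff] at hd
    exact hb hd
  have hqd : Nat.Coprime q d := by
    rw [Nat.Prime.coprime_iff_not_dvd hq]
    intro h
    exact (hl q hq h).1 rfl
  have had : IsCoprime a (d : ℤ) := IsCoprime.of_isCoprime_of_dvd_right hab hd
  have hX : IsCoprime (w ^ q) (d : ℤ) := by
    rw [← hw]
    obtain ⟨t, ht⟩ := hd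
    rw [ht]
    exact (IsCoprime.add_mul_left_left_iff (x := a) (y := (d : ℤ)) (z := t)).2 had
  have hwd : IsCoprime w (d : ℤ) := (IsCoprime.pow_left_iff hq.pos).1 hX
  have hcd : IsCoprime c (d : ℤ) := by
    rw [← IsCoprime.pow_left_iff hq.pos, ← heq]
    obtain ⟨t, ht⟩ := hd
    have e : b ^ n = (d : ℤ) * (t * b ^ (n - 1)) := by
      obtain ⟨m, rfl⟩ : ∃ m, n = m + 1 := ⟨n - 1, by omega⟩
      rw [Nat.add_sub_cancel, pow_succ']
      nth_rewrite 1 [ht]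
      ring
    rw [e]
    exact (IsCoprime.add_mul_left_left_iff).2 (IsCoprime.pow_left had)
  have hvd : IsCoprime (w ^ j * a ^ K) (d : ℤ) :=
    IsCoprime.mul_left (IsCoprime.pow_left hwd) (IsCoprime.pow_left had)
  have key : c ^ q * (w ^ q) ^ j - (w ^ j * a ^ K) ^ q * (w ^ q - b) ^ j = (w ^ q) ^ j * b ^ n := by
    have e1 : w ^ q - b = a := by rw [← hw]; ring
    rw [e1, ← heq, hn]
    ring
  unfold lam
  refine pf_congr (u := c) (v := w ^ j * a ^ K) hq.isPrimePow hqd hX hcd hvd ?_ ?_ ?_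
  · intro l hl1 hl2
    have hlb : (l : ℤ) ∣ b := (Int.natCast_dvd_natCast.2 hl2).trans hd
    refine ⟨hlb, ?_⟩
    have hnd : ∀ t : ℤ, IsCoprime t (d : ℤ) → ¬ (l : ℤ) ∣ t := by
      intro t ht h
      have h1 : IsCoprime t (l : ℤ) := IsCoprime.of_isCoprime_of_dvd_right ht
        (Int.natCast_dvd_natCast.2 hl2)
      have h2 := h1.isUnit_of_dvd' h (dvd_refl _)
      rw [Int.isUnit_iff_natAbs_eq, Int.natAbs_natCast] at h2
      exact hl1.one_lt.ne' h2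
    refine root_eq (q := q) hl1 ?_ (hnd _ hcd) (hnd _ hvd) ?_
    · rw [Nat.Prime.coprime_iff_not_dvd hq]
      exact (hl l hl1 hl2).2
    · have h1 : (l : ℤ) ∣ b ^ n := hlb.trans (dvd_pow_self _ hn0.ne')
      have e1 : w ^ q = a + b := hw.symm
      have e2 : c ^ q - (w ^ j * a ^ K) ^ q = b ^ n - a ^ (q * K) * ((a + b) ^ j - a ^ j) := by
        rw [← heq, mul_pow, ← pow_mul, mul_comm j q, pow_mul, e1, ← pow_mul, mul_comm K q, hn]
        ring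
      rw [e2]
      refine dvd_sub h1 (Dvd.dvd.mul_left ?_ _)
      have h2 := sub_dvd_pow_sub_pow (a + b) a j
      rw [add_sub_cancel_left] at h2
      exact hlb.trans h2
  · calc (d : ℤ) ^ W ∣ b ^ W := pow_dvd_pow_of_dvd hd W
      _ ∣ b ^ (2 * N + 1) := pow_dvd_pow _ hWN
  · rw [key]
    exact Dvd.dvd.mul_left ((pow_dvd_pow_of_dvd hd W).trans (pow_dvd_pow _ hWn)) _

theorem lam_ne {q n K j : ℕ} {a b c w : ℤ} (D : Dat q n K j a b c w) (N : ℕ) :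
    lam q K j N a b c w ≠ 0 ∨ lam q K j (N + 1) a b c w ≠ 0 := by
  obtain ⟨hq, hn, hj0, hjq, hab, ha, hb, hw0, heq, hw⟩ := D
  by_contra hcon
  push Not at hcon
  obtain ⟨h1, h2⟩ := hcon
  unfold lam at h1 h2
  have h3 := pf_ne (n := N) (X := w ^ q) hq.isPrimePow hj0 hjq hb
  apply h3
  have hv : w ^ j * a ^ K ≠ 0 := mul_ne_zero (pow_ne_zero _ hw0) (pow_ne_zero _ ha)
  apply mul_left_cancel₀ hv
  linear_combination pf q (N + 1) (-(j : ℤ)) (w ^ q) b * h1 - pf q N (-(j : ℤ)) (w ^ q) b * h2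

end Pool.Agent.U792.FC
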