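import Mathlib
import Pool.Agent.U792.FC.Core

/-!
Upper bounds for the linear form and the main inequality.
-/

set_option autoImplicit false

namespace Pool.Agent.U792.FC

open Finset Pool.Agent.H374R2.T

theorem abs_v_le {q n K j : ℕ} {a b c w : ℤ} (D : Dat q n K j a b c w) {M : ℝ} (hM : 1 ≤ M)
    (ha : |(a : ℝ)| ≤ M) (hb : |(b : ℝ)| ≤ M) :
    |((w ^ j * a ^ K : ℤ) : ℝ)| ≤ 2 * M ^ ((n : ℝ) / q) := by
  obtain ⟨hq, hn, hj0, hjq, hab, ha0, hb0, hw0, heq, hw⟩ := D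
  have hM0 : 0 < M := by linarith
  have hq0 : (q : ℝ) ≠ 0 := by exact_mod_cast hq.ne_zero
  have hX : |(w : ℝ)| ^ q ≤ 2 * M := by
    have e : (w : ℝ) ^ q = a + b := by exact_mod_cast hw.symm
    rw [← abs_pow, e]
    exact (abs_add_le _ _).trans (by linarith)
  have hA : (M ^ ((n : ℝ) / q)) ^ q = M ^ n := by
    rw [← Real.rpow_natCast, ← Real.rpow_mul hM0.le, div_mul_cancel₀ _ hq0, Real.rpow_natCast]
  have h1 : |((w ^ j * a ^ K : ℤ) : ℝ)| ^ q ≤ (2 * M ^ ((n : ℝ) / q)) ^ q := by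
    push_cast
    rw [abs_mul, abs_pow, abs_pow, mul_pow, mul_pow, hA, ← pow_mul, mul_comm j q, pow_mul,
      ← pow_mul |(a : ℝ)|, mul_comm K q]
    calc (|(w : ℝ)| ^ q) ^ j * |(a : ℝ)| ^ (q * K) ≤ (2 * M) ^ j * M ^ (q * K) := by gcongr
      _ = 2 ^ j * M ^ n := by rw [hn, pow_add, mul_pow]; ring
      _ ≤ 2 ^ q * M ^ n := by
          gcongr
          norm_num
  exact le_of_pow_le_pow_left₀ hq.ne_zero (by positivity) h1

theorem abs_c_le {q n K j : ℕ} {a b c w : ℤ} (D : Dat q n K j a b c w) {M : ℝ} (hM : 1 ≤ M)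
    (ha : |(a : ℝ)| ≤ M) (hb : |(b : ℝ)| ≤ M) : |(c : ℝ)| ≤ 2 * M ^ ((n : ℝ) / q) := by
  obtain ⟨hq, hn, hj0, hjq, hab, ha0, hb0, hw0, heq, hw⟩ := D
  have hM0 : 0 < M := by linarith
  have hq0 : (q : ℝ) ≠ 0 := by exact_mod_cast hq.ne_zero
  have hA : (M ^ ((n : ℝ) / q)) ^ q = M ^ n := by
    rw [← Real.rpow_natCast, ← Real.rpow_mul hM0.le, div_mul_cancel₀ _ hq0, Real.rpow_natCast]
  have h1 : |(c : ℝ)| ^ q ≤ (2 * M ^ ((n : ℝ) / q)) ^ q := by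
    have e : (c : ℝ) ^ q = (a : ℝ) ^ n + (b : ℝ) ^ n := by exact_mod_cast heq.symm
    rw [← abs_pow, e, mul_pow, hA]
    calc |(a : ℝ) ^ n + (b : ℝ) ^ n| ≤ |(a : ℝ)| ^ n + |(b : ℝ)| ^ n := by
          rw [← abs_pow, ← abs_pow]; exact abs_add_le _ _
      _ ≤ M ^ n + M ^ n := by gcongr
      _ = 2 ^ 1 * M ^ n := by ring
      _ ≤ 2 ^ q * M ^ n := by
          have : (2 : ℝ) ^ 1 ≤ 2 ^ q := pow_le_pow_right₀ (by norm_num) hq.one_lt.le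
          gcongr
  exact le_of_pow_le_pow_left₀ hq.ne_zero (by positivity) h1

/-- the bound without closeness -/
theorem boundA {q n K j : ℕ} {a b c w : ℤ} (D : Dat q n K j a b c w) {M : ℕ} (hM : 1 ≤ M)
    (ha : |a| ≤ M) (hb : |b| ≤ M) (N : ℕ) :
    |((lam q K j N a b c w : ℤ) : ℝ)| ≤
      8 * (16 * (q : ℝ) ^ 2) ^ N * (M : ℝ) ^ N * (M : ℝ) ^ ((n : ℝ) / q) := by
  have hMR : (1 : ℝ) ≤ M := by exact_mod_cast hM
  have haR : |(a : ℝ)| ≤ M := by exact_mod_cast ha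
  have hbR : |(b : ℝ)| ≤ M := by exact_mod_cast hb
  have hv := abs_v_le D hMR haR hbR
  have hc := abs_c_le D hMR haR hbR
  have hX : |w ^ q| ≤ 2 * (M : ℤ) := by
    rw [← D.hw]
    exact (abs_add_le _ _).trans (by linarith)
  have hT : |b| ≤ 2 * (M : ℤ) := by
    have : (0 : ℤ) ≤ M := Int.natCast_nonneg M
    linarith
  have hjq : |(j : ℤ)| ≤ q := by
    rw [Nat.abs_cast]
    exact_mod_cast D.hjq.le
  have hjq' : |(-(j : ℤ))| ≤ q := by rwa [abs_neg]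
  have h1 := pf_size (n := N) D.hq.isPrimePow hjq hX hT
  have h2 := pf_size (n := N) D.hq.isPrimePow hjq' hX hT
  have e3 : (2 * (8 * (q : ℤ) ^ 2) ^ N * (2 * (M : ℤ)) ^ N : ℤ) =
      2 * (16 * (q : ℤ) ^ 2) ^ N * (M : ℤ) ^ N := by
    rw [mul_pow 2 (M : ℤ) N, show (16 : ℤ) * (q : ℤ) ^ 2 = (8 * (q : ℤ) ^ 2) * 2 by ring,
      mul_pow _ 2 N]
    ring
  rw [e3] at h1 h2
  have h1' : |((pf q N j (w ^ q) b : ℤ) : ℝ)| ≤ 2 * (16 * (q : ℝ) ^ 2) ^ N * (M : ℝ) ^ N := by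
    exact_mod_cast h1
  have h2' : |((pf q N (-(j : ℤ)) (w ^ q) b : ℤ) : ℝ)| ≤
      2 * (16 * (q : ℝ) ^ 2) ^ N * (M : ℝ) ^ N := by
    exact_mod_cast h2
  have e4 : ((lam q K j N a b c w : ℤ) : ℝ) = ((w ^ j * a ^ K : ℤ) : ℝ) *
      ((pf q N j (w ^ q) b : ℤ) : ℝ) - (c : ℝ) * ((pf q N (-(j : ℤ)) (w ^ q) b : ℤ) : ℝ) := by
    unfold lam
    push_cast
    ring
  rw [e4]
  set A : ℝ := (M : ℝ) ^ ((n : ℝ) / q) with hA
  have hA0 : 0 ≤ A := by positivity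
  set B : ℝ := 2 * (16 * (q : ℝ) ^ 2) ^ N * (M : ℝ) ^ N with hB
  have hB0 : 0 ≤ B := by positivity
  calc _ ≤ |((w ^ j * a ^ K : ℤ) : ℝ) * ((pf q N j (w ^ q) b : ℤ) : ℝ)| +
        |(c : ℝ) * ((pf q N (-(j : ℤ)) (w ^ q) b : ℤ) : ℝ)| := abs_sub _ _
    _ ≤ (2 * A) * B + (2 * A) * B := by
        rw [abs_mul, abs_mul]
        gcongr
    _ = 8 * (16 * (q : ℝ) ^ 2) ^ N * (M : ℝ) ^ N * A := by rw [hB]; ring

theorem abs_sub_le_of_pow {A c : ℝ} {q : ℕ} (hq : 0 < q) (hA : 0 < A) (hc : 0 ≤ c) :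
    |A - c| * A ^ q ≤ A * |A ^ q - c ^ q| := by
  obtain ⟨m, rfl⟩ : ∃ m, q = m + 1 := ⟨q - 1, by omega⟩
  have h := Commute.geom_sum₂_mul (Commute.all A c) (m + 1)
  rw [← h, abs_mul]
  have h1 : A ^ m ≤ ∑ i ∈ range (m + 1), A ^ i * c ^ (m + 1 - 1 - i) := by
    have h2 := Finset.single_le_sum (s := range (m + 1)) (f := fun i => A ^ i * c ^ (m + 1 - 1 - i))
      (fun i _ => by positivity) (Finset.self_mem_range_succ m)
    simpa using h2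
  have h3 : 0 ≤ ∑ i ∈ range (m + 1), A ^ i * c ^ (m + 1 - 1 - i) := (by positivity : 0 ≤ A ^ m).trans h1
  rw [abs_of_nonneg h3]
  calc |A - c| * A ^ (m + 1) = A * (A ^ m * |A - c|) := by ring
    _ ≤ A * ((∑ i ∈ range (m + 1), A ^ i * c ^ (m + 1 - 1 - i)) * |A - c|) := by gcongr

/-- the bound with closeness -/
theorem boundB {q n K j : ℕ} {a b c w : ℤ} (D : Dat q n K j a b c w) (hqo : Odd q) (ha : 0 < a)
    (hb : 4 * |b| ≤ a) {N : ℕ} (hN : 2 * N + 1 ≤ n) :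
    |((lam q K j N a b c w : ℤ) : ℝ)| ≤
      8 * (18 * (q : ℝ) ^ 2) ^ N * (a : ℝ) ^ N * (a : ℝ) ^ ((n : ℝ) / q) *
        (|(b : ℝ)| / a) ^ (2 * N + 1) := by
  have haR : (0 : ℝ) < a := by exact_mod_cast ha
  have hbR : 4 * |(b : ℝ)| ≤ a := by exact_mod_cast hb
  have hq := D.hq
  have hq0 : (q : ℝ) ≠ 0 := by exact_mod_cast hq.ne_zero
  have hqp : (0 : ℝ) < q := by exact_mod_cast hq.pos
  -- `X = w ^ q = a + b`
  set X : ℤ := w ^ q with hXdef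
  have hX : X = a + b := D.hw.symm
  have hXR : (X : ℝ) = a + b := by rw [hX]; push_cast; ring
  have hb1 := abs_le.1 (show |b| ≤ |b| from le_rfl)
  have hbR1 := abs_le.1 (show |(b : ℝ)| ≤ |(b : ℝ)| from le_rfl)
  have hX0 : 0 < X := by rw [hX]; have := abs_nonneg b; linarith [hb1.1]
  have hX0R : (0 : ℝ) < X := by exact_mod_cast hX0
  have hXlo : 3 / 4 * (a : ℝ) ≤ X := by rw [hXR]; linarith [hbR1.1]
  have hXhi : (X : ℝ) ≤ 5 / 4 * a := by rw [hXR]; linarith [hbR1.2]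
  have h3T : 3 * |b| ≤ X := by rw [hX]; linarith [hb1.1]
  -- the function
  set A : ℝ := (a : ℝ) ^ ((n : ℝ) / q) with hA
  have hA0 : 0 < A := by positivity
  have hAq : A ^ q = (a : ℝ) ^ n := by
    rw [hA, ← Real.rpow_natCast, ← Real.rpow_mul haR.le, div_mul_cancel₀ _ hq0, Real.rpow_natCast]
  set th : ℝ := ((a : ℝ) / X) ^ ((j : ℝ) / q) with hth
  have hth0 : 0 < th := by positivity
  have hw0 : 0 < w := (hqo.pow_pos_iff).1 (by rw [← hXdef]; exact hX0)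
  have hw0R : (0 : ℝ) < w := by exact_mod_cast hw0
  have hcq : (c : ℝ) ^ q = (a : ℝ) ^ n + (b : ℝ) ^ n := by exact_mod_cast D.heq.symm
  have hn0 := D.hK
  have hbn : |(b : ℝ)| ^ n < (a : ℝ) ^ n := by
    refine pow_lt_pow_left₀ ?_ (abs_nonneg _) hn0.ne'
    linarith [abs_nonneg (b : ℝ)]
  have hc0 : (0 : ℝ) < c := by
    refine (hqo.pow_pos_iff).1 ?_
    rw [hcq]
    have h1 := neg_abs_le ((b : ℝ) ^ n)
    rw [abs_pow] at h1
    linarith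
  set v : ℝ := (w : ℝ) ^ j * (a : ℝ) ^ K with hv
  have hv0 : 0 < v := by positivity
  have hvA : v * th = A := by
    have e1 : (w : ℝ) ^ j = (X : ℝ) ^ ((j : ℝ) / q) := by
      have e2 : (X : ℝ) = (w : ℝ) ^ (q : ℝ) := by rw [hXdef, Real.rpow_natCast]; push_cast; rfl
      rw [e2, ← Real.rpow_mul hw0R.le, mul_div_cancel₀ _ hq0, Real.rpow_natCast]
    have e3 : (n : ℝ) / q = K + (j : ℝ) / q := by
      rw [D.hn]
      push_cast
      field_simp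
    rw [hv, hth, e1, Real.div_rpow haR.le hX0R.le, hA, e3, Real.rpow_add haR, Real.rpow_natCast]
    have : (X : ℝ) ^ ((j : ℝ) / q) ≠ 0 := by positivity
    field_simp
  have hth1 : 4 / 5 ≤ th := by
    have h1 : (4 / 5 : ℝ) ≤ (a : ℝ) / X := by
      rw [le_div_iff₀ hX0R]
      linarith
    have h2 : ((4 / 5 : ℝ)) ^ (1 : ℝ) ≤ (4 / 5 : ℝ) ^ ((j : ℝ) / q) := by
      apply Real.rpow_le_rpow_of_exponent_ge (by norm_num) (by norm_num)
      rw [div_le_one hqp]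
      exact_mod_cast D.hjq.le
    rw [Real.rpow_one] at h2
    exact h2.trans (Real.rpow_le_rpow (by norm_num) h1 (by positivity))
  have hv1 : v ≤ 5 / 4 * A := by
    rw [← hvA]
    nlinarith
  set ρ : ℝ := |(b : ℝ)| / a with hρ
  have hρ0 : 0 ≤ ρ := by positivity
  have hρ1 : ρ ≤ 1 := by
    rw [hρ, div_le_one haR]
    linarith [abs_nonneg (b : ℝ)]
  have hcA : |A - c| ≤ A * ρ ^ n := by
    have h1 := abs_sub_le_of_pow hq.pos hA0 hc0.le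
    rw [hAq, hcq, show (a : ℝ) ^ n - ((a : ℝ) ^ n + (b : ℝ) ^ n) = -(b : ℝ) ^ n by ring, abs_neg,
      abs_pow] at h1
    rw [hρ, div_pow, ← mul_div_assoc, le_div_iff₀ (by positivity)]
    exact h1
  -- the forms
  have hjq : |(-(j : ℤ))| ≤ q := by
    rw [abs_neg, Nat.abs_cast]
    exact_mod_cast D.hjq.le
  have hTX : |b| ≤ X := by have := abs_nonneg b; linarith
  have h2 := pf_size (n := N) (s := -(j : ℤ)) (X := X) (T := b) (M := X) hq.isPrimePow hjq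
    (abs_of_pos hX0).le hTX
  have h2' : |((pf q N (-(j : ℤ)) X b : ℤ) : ℝ)| ≤ 2 * (8 * (q : ℝ) ^ 2) ^ N * (X : ℝ) ^ N := by
    exact_mod_cast h2
  have h1 := pf_real (n := N) (X := X) (T := b) hq.isPrimePow D.hj0 D.hjq hX0 h3T
  have e1 : 1 - (b : ℝ) / X = a / X := by
    rw [hXR]
    have : (a : ℝ) + b ≠ 0 := by rw [← hXR]; exact hX0R.ne'
    field_simp
    ring
  rw [e1, ← hth] at h1
  have hbX : |(b : ℝ) / X| ≤ 4 / 3 * ρ := by
    rw [abs_div, abs_of_pos hX0R, hρ, div_le_iff₀ hX0R]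
    have h5 : 4 / 3 * (|(b : ℝ)| / a) * (3 / 4 * a) = |(b : ℝ)| := by field_simp
    calc |(b : ℝ)| = 4 / 3 * (|(b : ℝ)| / a) * (3 / 4 * a) := h5.symm
      _ ≤ 4 / 3 * (|(b : ℝ)| / a) * X := by gcongr
  set P : ℝ := ((pf q N j X b : ℤ) : ℝ) with hP
  set Q : ℝ := ((pf q N (-(j : ℤ)) X b : ℤ) : ℝ) with hQ
  have e4 : ((lam q K j N a b c w : ℤ) : ℝ) = v * (P - th * Q) + (A - c) * Q := by
    unfold lam
    rw [← hvA, hP, hQ, hv, ← hXdef]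
    push_cast
    ring
  rw [e4]
  have hpn : ρ ^ n ≤ ρ ^ (2 * N + 1) := pow_le_pow_of_le_one hρ0 hρ1 hN
  have hXN : (X : ℝ) ^ N ≤ (5 / 4) ^ N * (a : ℝ) ^ N := by
    rw [← mul_pow]
    exact pow_le_pow_left₀ hX0R.le hXhi N
  set G : ℝ := (8 * (q : ℝ) ^ 2) ^ N * ((5 / 4) ^ N * (a : ℝ) ^ N) with hG
  have hG0 : 0 ≤ G := by positivity
  calc |v * (P - th * Q) + (A - c) * Q| ≤ |v * (P - th * Q)| + |(A - c) * Q| := abs_add_le _ _
    _ = v * |P - th * Q| + |A - c| * |Q| := by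
        rw [abs_mul v, abs_mul (A - c), abs_of_pos hv0]
    _ ≤ (5 / 4 * A) * (2 * (8 * (q : ℝ) ^ 2) ^ N * ((5 / 4) ^ N * (a : ℝ) ^ N) *
          (4 / 3 * ρ) ^ (2 * N + 1)) +
        (A * ρ ^ (2 * N + 1)) * (2 * (8 * (q : ℝ) ^ 2) ^ N * ((5 / 4) ^ N * (a : ℝ) ^ N)) := by
        have k1 : |P - th * Q| ≤ 2 * (8 * (q : ℝ) ^ 2) ^ N * ((5 / 4) ^ N * (a : ℝ) ^ N) *
          (4 / 3 * ρ) ^ (2 * N + 1) := by
          refine h1.trans ?_
          gcongr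
        have k2 : |Q| ≤ 2 * (8 * (q : ℝ) ^ 2) ^ N * ((5 / 4) ^ N * (a : ℝ) ^ N) := by
          refine h2'.trans ?_
          gcongr
        have k3 : |A - c| ≤ A * ρ ^ (2 * N + 1) := hcA.trans (by gcongr)
        gcongr
    _ = A * G * ρ ^ (2 * N + 1) * (5 / 2 * (4 / 3) ^ (2 * N + 1) + 2) := by
        rw [hG, mul_pow (4 / 3 : ℝ) ρ]
        ring
    _ ≤ A * G * ρ ^ (2 * N + 1) * (8 * (16 / 9) ^ N) := by
        have k4 : (5 / 2 * (4 / 3) ^ (2 * N + 1) + 2 : ℝ) ≤ 8 * (16 / 9) ^ N := by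
          have k5 : ((4 / 3 : ℝ)) ^ (2 * N + 1) = 4 / 3 * (16 / 9) ^ N := by
            rw [pow_succ, pow_mul]
            norm_num
            ring
          have k6 : (1 : ℝ) ≤ (16 / 9) ^ N := one_le_pow₀ (by norm_num)
          rw [k5]
          linarith
        gcongr
    _ = 8 * (A * (a : ℝ) ^ N * ρ ^ (2 * N + 1)) * ((8 * (q : ℝ) ^ 2) * (5 / 4) * (16 / 9)) ^ N := by
        rw [hG, mul_pow _ (16 / 9 : ℝ) N, mul_pow _ (5 / 4 : ℝ) N]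
        ring
    _ ≤ 8 * (A * (a : ℝ) ^ N * ρ ^ (2 * N + 1)) * (18 * (q : ℝ) ^ 2) ^ N := by
        refine mul_le_mul_of_nonneg_left (pow_le_pow_left₀ (by positivity) ?_ N) (by positivity)
        have := sq_nonneg (q : ℝ)
        linarith
    _ = _ := by ring

end Pool.Agent.U792.FC
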