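import Mathlib
import Pool.Agent.U792.FC.Real

/-!
The main inequality: `max (|a|, |b|) ^ (1/2 - 1/q) ≤ 128 q e` for `b = ± d e`, where `d` has no prime
factor `≡ 0, 1 (mod q)`.
-/

set_option autoImplicit false

namespace Pool.Agent.U792.FC

open Finset Pool.Agent.H374R2.T

theorem Dat.neg {q n K j : ℕ} {a b c w : ℤ} (D : Dat q n K j a b c w) (hqo : Odd q) (hno : Odd n) :
    Dat q n K j (-a) (-b) (-c) (-w) := by
  obtain ⟨hq, hn, hj0, hjq, hab, ha, hb, hw0, heq, hw⟩ := D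
  refine ⟨hq, hn, hj0, hjq, hab.neg_neg, neg_ne_zero.2 ha, neg_ne_zero.2 hb, neg_ne_zero.2 hw0, ?_, ?_⟩
  · rw [hno.neg_pow, hno.neg_pow, hqo.neg_pow, ← heq]
    ring
  · rw [hqo.neg_pow, ← hw]
    ring

theorem low {d W : ℕ} {x : ℤ} (hx : x ≠ 0) (h : (d : ℤ) ^ W ∣ x) : (d : ℝ) ^ W ≤ |(x : ℝ)| := by
  have h1 := Int.le_of_dvd (abs_pos.2 hx) ((dvd_abs _ _).2 h)
  exact_mod_cast h1

theorem starA {q n K j : ℕ} {a b c w : ℤ} (D : Dat q n K j a b c w) {M d e N : ℕ} (hM : 1 ≤ M)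
    (ha : |a| ≤ M) (hb : |b| ≤ M) (hbM : (M : ℤ) ≤ 4 * |b|) (hde : b.natAbs = d * e)
    (hN : 2 * N + 1 ≤ n) (hl : ∀ l : ℕ, l.Prime → l ∣ d → l ≠ q ∧ ¬ q ∣ l - 1)
    (hne : lam q K j N a b c w ≠ 0) :
    (M : ℝ) ^ (N + 1) ≤
      8 * (16 * (q : ℝ) ^ 2) ^ N * (4 * (e : ℝ)) ^ (2 * N + 1) * (M : ℝ) ^ ((n : ℝ) / q) := by
  have hMR : (1 : ℝ) ≤ M := by exact_mod_cast hM
  have hdb : (d : ℤ) ∣ b := by
    rw [Int.natCast_dvd, hde]
    exact dvd_mul_right _ _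
  have h1 := low hne (lam_dvd D hdb hl hN le_rfl)
  have h2 := boundA D hM ha hb N
  have hbe : |(b : ℝ)| = d * e := by
    rw [← Int.cast_abs, Int.abs_eq_natAbs, hde]
    push_cast
    rfl
  have h3 : (M : ℝ) ≤ 4 * (d * e) := by
    rw [← hbe]
    exact_mod_cast hbM
  set A : ℝ := (M : ℝ) ^ ((n : ℝ) / q) with hA
  have h4 : (M : ℝ) ^ (2 * N + 1) ≤ (4 * (e : ℝ)) ^ (2 * N + 1) *
      (8 * (16 * (q : ℝ) ^ 2) ^ N * (M : ℝ) ^ N * A) := by
    calc (M : ℝ) ^ (2 * N + 1) ≤ (4 * (d * e)) ^ (2 * N + 1) := by gcongr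
      _ = (4 * (e : ℝ)) ^ (2 * N + 1) * (d : ℝ) ^ (2 * N + 1) := by rw [← mul_pow]; ring
      _ ≤ _ := by
          gcongr
          exact h1.trans h2
  have hMN : (0 : ℝ) < (M : ℝ) ^ N := by positivity
  refine le_of_mul_le_mul_right (a := (M : ℝ) ^ N) ?_ hMN
  calc (M : ℝ) ^ (N + 1) * (M : ℝ) ^ N = (M : ℝ) ^ (2 * N + 1) := by rw [← pow_add]; ring_nf
    _ ≤ _ := h4
    _ = _ := by ring

theorem starB {q n K j : ℕ} {a b c w : ℤ} (D : Dat q n K j a b c w) (hqo : Odd q) (ha : 0 < a)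
    (hb : 4 * |b| ≤ a) {d e N : ℕ} (hde : b.natAbs = d * e)
    (hN : 2 * N + 1 ≤ n) (hl : ∀ l : ℕ, l.Prime → l ∣ d → l ≠ q ∧ ¬ q ∣ l - 1)
    (hne : lam q K j N a b c w ≠ 0) :
    (a : ℝ) ^ (N + 1) ≤
      8 * (16 * (q : ℝ) ^ 2) ^ N * (4 * (e : ℝ)) ^ (2 * N + 1) * (a : ℝ) ^ ((n : ℝ) / q) := by
  have haR : (0 : ℝ) < a := by exact_mod_cast ha
  have hdb : (d : ℤ) ∣ b := by
    rw [Int.natCast_dvd, hde]
    exact dvd_mul_right _ _
  have h1 := low hne (lam_dvd D hdb hl hN le_rfl)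
  have h2 := boundB D hqo ha hb hN
  have hbe : |(b : ℝ)| = d * e := by
    rw [← Int.cast_abs, Int.abs_eq_natAbs, hde]
    push_cast
    rfl
  have hb0 : (0 : ℝ) < |(b : ℝ)| := abs_pos.2 (by exact_mod_cast D.hb)
  set A : ℝ := (a : ℝ) ^ ((n : ℝ) / q) with hA
  have h3 := h1.trans h2
  have h4 : |(b : ℝ)| ^ (2 * N + 1) ≤ (e : ℝ) ^ (2 * N + 1) *
      (8 * (18 * (q : ℝ) ^ 2) ^ N * (a : ℝ) ^ N * A * (|(b : ℝ)| / a) ^ (2 * N + 1)) := by
    calc |(b : ℝ)| ^ (2 * N + 1) = (e : ℝ) ^ (2 * N + 1) * (d : ℝ) ^ (2 * N + 1) := by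
          rw [hbe, ← mul_pow, mul_comm]
      _ ≤ _ := by gcongr
  have h5 : (a : ℝ) ^ (2 * N + 1) ≤ (e : ℝ) ^ (2 * N + 1) *
      (8 * (18 * (q : ℝ) ^ 2) ^ N * (a : ℝ) ^ N * A) := by
    refine le_of_mul_le_mul_right (a := |(b : ℝ)| ^ (2 * N + 1)) ?_ (by positivity)
    have h6 := mul_le_mul_of_nonneg_left h4 (show (0 : ℝ) ≤ (a : ℝ) ^ (2 * N + 1) by positivity)
    refine h6.trans (le_of_eq ?_)
    rw [div_pow]
    have : (a : ℝ) ^ (2 * N + 1) ≠ 0 := by positivity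
    field_simp
  have haN : (0 : ℝ) < (a : ℝ) ^ N := by positivity
  refine le_of_mul_le_mul_right (a := (a : ℝ) ^ N) ?_ haN
  calc (a : ℝ) ^ (N + 1) * (a : ℝ) ^ N = (a : ℝ) ^ (2 * N + 1) := by rw [← pow_add]; ring_nf
    _ ≤ _ := h5
    _ = (8 * A * (a : ℝ) ^ N) * ((18 * (q : ℝ) ^ 2) ^ N * (e : ℝ) ^ (2 * N + 1)) := by ring
    _ ≤ (8 * A * (a : ℝ) ^ N) * ((16 * (q : ℝ) ^ 2) ^ N * (4 * (e : ℝ)) ^ (2 * N + 1)) := by
        refine mul_le_mul_of_nonneg_left ?_ (by positivity)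
        have e0 : (4 : ℝ) ^ (2 * N + 1) = 4 * 16 ^ N := by
          rw [pow_succ, pow_mul]
          norm_num
          ring
        have e1 : (4 * (e : ℝ)) ^ (2 * N + 1) = 4 * 16 ^ N * (e : ℝ) ^ (2 * N + 1) := by
          rw [mul_pow, e0]
        have e2 : (18 * (q : ℝ) ^ 2) ^ N ≤ (16 * (q : ℝ) ^ 2) ^ N * 16 ^ N := by
          rw [← mul_pow]
          refine pow_le_pow_left₀ (by positivity) ?_ N
          have := sq_nonneg (q : ℝ)
          linarith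
        rw [e1]
        have e3 : (0 : ℝ) ≤ (e : ℝ) ^ (2 * N + 1) := by positivity
        have e4 : (0 : ℝ) ≤ (16 * (q : ℝ) ^ 2) ^ N * 16 ^ N := by positivity
        calc (18 * (q : ℝ) ^ 2) ^ N * (e : ℝ) ^ (2 * N + 1) ≤
              ((16 * (q : ℝ) ^ 2) ^ N * 16 ^ N) * (e : ℝ) ^ (2 * N + 1) := by gcongr
          _ ≤ 4 * (((16 * (q : ℝ) ^ 2) ^ N * 16 ^ N) * (e : ℝ) ^ (2 * N + 1)) := by
              have := mul_nonneg e4 e3
              linarith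
          _ = _ := by ring
    _ = _ := by ring

/-- from the star inequality to the final one -/
theorem fin_of {q n N e : ℕ} {M : ℝ} (hq : 5 ≤ q) (hN : n ≤ 2 * N + 3) (hM : 1 ≤ M)
    (h : M ^ (N + 1) ≤ 8 * (16 * (q : ℝ) ^ 2) ^ N * (4 * (e : ℝ)) ^ (2 * N + 1) *
      M ^ ((n : ℝ) / q)) : M ^ ((1 : ℝ) / 2 - 1 / q) ≤ 128 * q * e := by
  have hM0 : 0 < M := by linarith
  have hq5 : (5 : ℝ) ≤ q := by exact_mod_cast hq
  have hq0 : (0 : ℝ) < q := by linarith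
  have hN' : (n : ℝ) ≤ 2 * N + 3 := by exact_mod_cast hN
  have h1 : M ^ (((N : ℝ) + 1) - n / q) ≤ (128 * q * e) ^ (2 * N + 1) := by
    rw [Real.rpow_sub hM0, div_le_iff₀ (by positivity), show (N : ℝ) + 1 = ((N + 1 : ℕ) : ℝ) by
      push_cast; ring, Real.rpow_natCast]
    refine h.trans ?_
    refine mul_le_mul_of_nonneg_right ?_ (by positivity)
    have e1 : (16 * (q : ℝ) ^ 2) ^ N = (4 * (q : ℝ)) ^ (2 * N) := by rw [pow_mul]; ring_nf
    have e2 : (4 * (q : ℝ)) ^ (2 * N) ≤ (4 * (q : ℝ)) ^ (2 * N + 1) :=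
      pow_le_pow_right₀ (by linarith) (Nat.le_succ _)
    have e3 : (8 : ℝ) ≤ 8 ^ (2 * N + 1) := by
      calc (8 : ℝ) = 8 ^ 1 := by norm_num
        _ ≤ 8 ^ (2 * N + 1) := pow_le_pow_right₀ (by norm_num) (by omega)
    calc 8 * (16 * (q : ℝ) ^ 2) ^ N * (4 * (e : ℝ)) ^ (2 * N + 1) ≤
          8 ^ (2 * N + 1) * (4 * (q : ℝ)) ^ (2 * N + 1) * (4 * (e : ℝ)) ^ (2 * N + 1) := by
          rw [e1]
          gcongr
      _ = _ := by rw [← mul_pow, ← mul_pow]; ring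
  have h2 : (M ^ ((1 : ℝ) / 2 - 1 / q)) ^ (2 * N + 1) ≤ (128 * q * e) ^ (2 * N + 1) := by
    rw [← Real.rpow_natCast, ← Real.rpow_mul hM0.le]
    refine le_trans (Real.rpow_le_rpow_of_exponent_le hM ?_) h1
    push_cast
    have h3 : (n : ℝ) / q ≤ (2 * N + 3) / q := by gcongr
    have h4 : (1 : ℝ) / q ≤ 1 / 5 := by
      rw [div_le_div_iff₀ hq0 (by norm_num)]
      linarith
    have h5 : ((2 : ℝ) * N + 3) / q = (2 * N + 1) * (1 / q) + 2 * (1 / q) := by ring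
    rw [h5] at h3
    nlinarith
  exact le_of_pow_le_pow_left₀ (by omega) (by positivity) h2

/-- **The main inequality.** -/
theorem main {q n K j : ℕ} {a b c w : ℤ} (D : Dat q n K j a b c w) (hq5 : 5 ≤ q) (hno : Odd n)
    (hn3 : 3 ≤ n) {M : ℕ} (hM : M = max a.natAbs b.natAbs) {d e : ℕ} (hde : b.natAbs = d * e)
    (hl : ∀ l : ℕ, l.Prime → l ∣ d → l ≠ q ∧ ¬ q ∣ l - 1) :
    (M : ℝ) ^ ((1 : ℝ) / 2 - 1 / q) ≤ 128 * q * e := by
  have hqo : Odd q := D.hq.odd_of_ne_two (by omega)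
  obtain ⟨m, hm⟩ := hno
  obtain ⟨m, rfl⟩ : ∃ k, m = k + 1 := ⟨m - 1, by omega⟩
  have ha0 : 1 ≤ a.natAbs := Int.natAbs_pos.2 D.ha
  have hM1 : 1 ≤ M := by rw [hM]; exact ha0.trans (le_max_left _ _)
  have hMR : (1 : ℝ) ≤ M := by exact_mod_cast hM1
  have haM : |a| ≤ (M : ℤ) := by
    rw [Int.abs_eq_natAbs, hM]
    exact_mod_cast le_max_left _ _
  have hbM : |b| ≤ (M : ℤ) := by
    rw [Int.abs_eq_natAbs, hM]
    exact_mod_cast le_max_right _ _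
  rcases le_or_gt (M : ℤ) (4 * |b|) with h4 | h4
  · -- no closeness
    rcases lam_ne D m with h | h
    · exact fin_of hq5 (by omega) hMR (starA D hM1 haM hbM h4 hde (by omega) hl h)
    · exact fin_of hq5 (by omega) hMR (starA D hM1 haM hbM h4 hde (by omega) hl h)
  · -- closeness
    have hMa : (M : ℤ) = |a| := by
      rw [Int.abs_eq_natAbs] at h4 ⊢
      have h4' : 4 * b.natAbs < M := by exact_mod_cast h4
      rcases le_total a.natAbs b.natAbs with h | h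
      · rw [max_eq_right h] at hM
        omega
      · rw [hM, max_eq_left h]
    rcases lt_or_gt_of_ne D.ha with ha | ha
    · have D' := D.neg hqo ⟨m + 1, hm⟩
      have ha' : 0 < -a := by linarith
      have hMa' : (M : ℝ) = ((-a : ℤ) : ℝ) := by
        have : (M : ℤ) = -a := by rw [hMa, abs_of_neg ha]
        exact_mod_cast congrArg (fun z : ℤ => (z : ℝ)) this
      have hb' : 4 * |(-b)| ≤ -a := by
        rw [abs_neg, ← abs_of_neg ha, ← hMa]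
        exact h4.le
      have hde' : (-b).natAbs = d * e := by rw [Int.natAbs_neg, hde]
      rw [hMa'] at hMR ⊢
      rcases lam_ne D' m with h | h
      · exact fin_of hq5 (by omega) hMR (starB D' hqo ha' hb' hde' (by omega) hl h)
      · exact fin_of hq5 (by omega) hMR (starB D' hqo ha' hb' hde' (by omega) hl h)
    · have hMa' : (M : ℝ) = (a : ℝ) := by
        have : (M : ℤ) = a := by rw [hMa, abs_of_pos ha]
        exact_mod_cast congrArg (fun z : ℤ => (z : ℝ)) this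
      have hb' : 4 * |b| ≤ a := by
        rw [abs_of_pos ha] at hMa
        rw [← hMa]
        exact h4.le
      rw [hMa'] at hMR ⊢
      rcases lam_ne D m with h | h
      · exact fin_of hq5 (by omega) hMR (starB D hqo ha hb' hde (by omega) hl h)
      · exact fin_of hq5 (by omega) hMR (starB D hqo ha hb' hde (by omega) hl h)

end Pool.Agent.U792.FC
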