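import Mathlib
import Pool.Agent.U792.FC.Main

/-!
`x ^ p + y ^ p = z ^ r` with `p ∤ z`: the sum `x + y` is an `r`-th power; the main inequality.
-/

set_option autoImplicit false

namespace Pool.Agent.U792.FC

open Finset

theorem factor {p r : ℕ} {x y z : ℤ} (hp : p.Prime) (hp2 : p ≠ 2) (hro : Odd r)
    (hxy : IsCoprime x y) (hpz : ¬ (p : ℤ) ∣ z) (h : x ^ p + y ^ p = z ^ r) :
    ∃ w : ℤ, x + y = w ^ r := by
  have hpo : Odd p := hp.odd_of_ne_two hp2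
  set S : ℤ := ∑ i ∈ range p, x ^ i * (-y) ^ (p - 1 - i) with hS
  have hfac : (x + y) * S = z ^ r := by
    have h1 := Commute.geom_sum₂_mul (Commute.all x (-y)) p
    rw [hpo.neg_pow] at h1
    rw [mul_comm, hS, ← h]
    linear_combination h1
  have hr0 : r ≠ 0 := by
    rintro rfl
    simp at hro
  have hco : IsCoprime (x + y) S := by
    refine isCoprime_of_prime_dvd ?_ ?_
    · rintro ⟨h1, -⟩
      rw [h1, zero_mul] at hfac
      have : z = 0 := pow_eq_zero_iff hr0 |>.1 hfac.symm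
      exact hpz (this ▸ dvd_zero _)
    · intro l hl h1 h2
      have h3 : l ∣ x - -y := by rwa [sub_neg_eq_add]
      have h4 := (dvd_geom_sum₂_iff_of_dvd_sub h3).1 h2
      have hly : ¬ l ∣ y := by
        intro h5
        have h6 : l ∣ x := by
          have := dvd_sub h1 h5
          rwa [add_sub_cancel_right] at this
        exact hl.not_isUnit (hxy.isUnit_of_dvd' h6 h5)
      rcases hl.dvd_or_dvd h4 with h5 | h5
      · have h6 : Associated l (p : ℤ) := by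
          have hpp : Prime (p : ℤ) := Nat.prime_iff_prime_int.1 hp
          exact hl.associated_of_dvd hpp h5
        have h7 : (p : ℤ) ∣ z ^ r := by
          rw [← hfac]
          exact (h6.symm.dvd.trans h1).mul_right _
        exact hpz ((Nat.prime_iff_prime_int.1 hp).dvd_of_dvd_pow h7)
      · have h6 := hl.dvd_of_dvd_pow h5
        exact hly ((dvd_neg).1 h6)
  exact (Int.eq_pow_of_mul_eq_pow_odd hco hro hfac).1

/-- `x ^ p + y ^ p = z ^ r` with primes `p ≥ 3`, `r ≥ 5`, `p ≠ r`, coprime nonzero `x`, `y` and `p ∤ z` -/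
def Sol (p r : ℕ) (x y z : ℤ) : Prop :=
  p.Prime ∧ r.Prime ∧ 3 ≤ p ∧ 5 ≤ r ∧ p ≠ r ∧ x ≠ 0 ∧ y ≠ 0 ∧ IsCoprime x y ∧ ¬ (p : ℤ) ∣ z ∧
    x ^ p + y ^ p = z ^ r

/-- no prime factor of `d` is `0` or `1` modulo `r` -/
def Free (r d : ℕ) : Prop := ∀ l : ℕ, l.Prime → l ∣ d → ¬ l ≡ 0 [MOD r] ∧ ¬ l ≡ 1 [MOD r]

theorem Sol.symm {p r : ℕ} {x y z : ℤ} (h : Sol p r x y z) : Sol p r y x z := by
  obtain ⟨h1, h2, h3, h4, h5, h6, h7, h8, h9, h10⟩ := h
  exact ⟨h1, h2, h3, h4, h5, h7, h6, h8.symm, h9, by rw [add_comm]; exact h10⟩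

theorem Sol.dat {p r : ℕ} {x y z : ℤ} (h : Sol p r x y z) :
    ∃ w : ℤ, Dat r p (p / r) (p % r) x y z w := by
  obtain ⟨hp, hr, hp3, hr5, hpr, hx, hy, hxy, hpz, heq⟩ := h
  have hro : Odd r := hr.odd_of_ne_two (by omega)
  obtain ⟨w, hw⟩ := factor hp (by omega) hro hxy hpz heq
  refine ⟨w, hr, (Nat.div_add_mod p r).symm, ?_, Nat.mod_lt _ hr.pos, hxy, hx, hy, ?_, heq, hw⟩
  · rw [Nat.pos_iff_ne_zero]
    intro h0
    have h1 : r ∣ p := Nat.dvd_of_mod_eq_zero h0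
    exact hpr ((Nat.prime_dvd_prime_iff_eq hr hp).1 h1).symm
  · rintro rfl
    rw [zero_pow hr.ne_zero] at hw
    have hyx : y = -x := by linarith
    rw [hyx, (hp.odd_of_ne_two (by omega)).neg_pow, add_neg_cancel] at heq
    have : z = 0 := pow_eq_zero_iff hr.ne_zero |>.1 heq.symm
    exact hpz (this ▸ dvd_zero _)

theorem Free.cond {r d : ℕ} (hr : r.Prime) (h : Free r d) :
    ∀ l : ℕ, l.Prime → l ∣ d → l ≠ r ∧ ¬ r ∣ l - 1 := by
  intro l hl hld
  obtain ⟨h0, h1⟩ := h l hl hld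
  refine ⟨?_, ?_⟩
  · rintro rfl
    exact h0 ((Nat.modEq_zero_iff_dvd).2 dvd_rfl)
  · intro h2
    exact h1 ((Nat.modEq_iff_dvd' hl.one_lt.le).2 h2).symm

theorem main_y {p r : ℕ} {x y z : ℤ} (h : Sol p r x y z) {d e : ℕ} (hd : Free r d)
    (hde : y.natAbs = d * e) :
    ((max x.natAbs y.natAbs : ℕ) : ℝ) ^ ((1 : ℝ) / 2 - 1 / r) ≤ 128 * r * e := by
  obtain ⟨w, D⟩ := h.dat
  obtain ⟨hp, hr, hp3, hr5, -⟩ := h
  exact main D hr5 (hp.odd_of_ne_two (by omega)) hp3 rfl hde (hd.cond hr)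

theorem main_xy {p r : ℕ} {x y z : ℤ} (h : Sol p r x y z) {d e : ℕ} (hd : Free r d)
    (hde : x.natAbs = d * e ∨ y.natAbs = d * e) :
    ((max x.natAbs y.natAbs : ℕ) : ℝ) ^ ((1 : ℝ) / 2 - 1 / r) ≤ 128 * r * e := by
  rcases hde with h1 | h1
  · rw [max_comm]
    exact main_y h.symm hd h1
  · exact main_y h hd h1

end Pool.Agent.U792.FC
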