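import Mathlib
import Pool.Agent.U792.FC.Fac

/-!
Positive solutions with a large exponent `r`.
-/

set_option autoImplicit false

namespace Pool.Agent.U792.FC

open Finset

theorem pow_six (r : ℕ) (hr : 97 ≤ r) : r ^ 6 ≤ 2 ^ (r - 54) := by
  induction r, hr using Nat.le_induction with
  | base => norm_num
  | succ r hr ih =>
    have h1 : (r + 1) ^ 6 ≤ 2 * r ^ 6 := by
      have h2 : 97 * (r + 1) ≤ 98 * r := by omega
      have h3 := Nat.pow_le_pow_left h2 6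
      rw [mul_pow, mul_pow] at h3
      have h4 : (97 : ℕ) ^ 6 * (r + 1) ^ 6 ≤ 97 ^ 6 * (2 * r ^ 6) := by
        calc (97 : ℕ) ^ 6 * (r + 1) ^ 6 ≤ 98 ^ 6 * r ^ 6 := h3
          _ ≤ (2 * 97 ^ 6) * r ^ 6 := Nat.mul_le_mul_right _ (by norm_num)
          _ = _ := by ring
      exact Nat.le_of_mul_le_mul_left h4 (by norm_num)
    calc (r + 1) ^ 6 ≤ 2 * r ^ 6 := h1
      _ ≤ 2 * 2 ^ (r - 54) := Nat.mul_le_mul_left _ ih
      _ = 2 ^ (r + 1 - 54) := by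
          rw [← pow_succ', show r + 1 - 54 = r - 54 + 1 by omega]

theorem Sol.two_pow_le {p r : ℕ} {x y z : ℤ} (h : Sol p r x y z) (hx : 0 < x) (hy : 0 < y) :
    (2 : ℤ) ^ r ≤ x + y := by
  obtain ⟨w, D⟩ := h.dat
  have hr := D.hq
  have hro : Odd r := hr.odd_of_ne_two (by have := h.2.2.2.1; omega)
  have hw := D.hw
  have hw0 : 0 < w := (hro.pow_pos_iff).1 (by rw [← hw]; linarith)
  have hw2 : 2 ≤ w := by
    by_contra hcon
    have : w = 1 := by omega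
    rw [this, one_pow] at hw
    omega
  rw [hw]
  exact pow_le_pow_left₀ (by norm_num) hw2 r

theorem large {p r : ℕ} {x y z : ℤ} (h : Sol p r x y z) (hr : 97 ≤ r) (hx : 0 < x) (hy : 0 < y)
    {d e : ℕ} (hd : Free r d) (hde : x.natAbs = d * e ∨ y.natAbs = d * e) :
    ((x : ℝ) + y) ^ ((1 : ℝ) / 3) ≤ e := by
  have h1 := main_xy h hd hde
  have h2 := h.two_pow_le hx hy
  have h2R : (2 : ℝ) ^ r ≤ (x : ℝ) + y := by exact_mod_cast h2
  set S : ℝ := (x : ℝ) + y with hS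
  have hS0 : 0 < S := lt_of_lt_of_le (by positivity) h2R
  have hrR : (97 : ℝ) ≤ r := by exact_mod_cast hr
  have hM : S / 2 ≤ ((max x.natAbs y.natAbs : ℕ) : ℝ) := by
    have e1 : (x : ℝ) = (x.natAbs : ℝ) := by rw [Nat.cast_natAbs, abs_of_pos hx]
    have e2 : (y : ℝ) = (y.natAbs : ℝ) := by rw [Nat.cast_natAbs, abs_of_pos hy]
    rw [hS, e1, e2, Nat.cast_max]
    have := le_max_left (x.natAbs : ℝ) (y.natAbs : ℝ)
    have := le_max_right (x.natAbs : ℝ) (y.natAbs : ℝ)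
    linarith
  have hr6 : (1 : ℝ) / r ≤ 1 / 97 := by
    rw [div_le_div_iff₀ (by linarith) (by norm_num)]
    linarith
  have hr0 : (0 : ℝ) < 1 / r := by positivity
  have h3 : (S / 2) ^ ((1 : ℝ) / 2 - 1 / r) ≤ 128 * r * e :=
    (Real.rpow_le_rpow (by positivity) hM (by linarith)).trans h1
  have h4 : 1 / 2 * S ^ ((1 : ℝ) / 2 - 1 / r) ≤ (S / 2) ^ ((1 : ℝ) / 2 - 1 / r) := by
    rw [div_eq_mul_inv S 2, Real.mul_rpow hS0.le (by norm_num), mul_comm]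
    refine mul_le_mul_of_nonneg_left ?_ (by positivity)
    have : ((2 : ℝ)⁻¹) ^ (1 : ℝ) ≤ (2 : ℝ)⁻¹ ^ ((1 : ℝ) / 2 - 1 / r) :=
      Real.rpow_le_rpow_of_exponent_ge (by norm_num) (by norm_num) (by linarith)
    rw [Real.rpow_one] at this
    linarith
  -- `256 r ≤ S ^ (1/6 - 1/r)`
  have h5 : 256 * (r : ℝ) ≤ S ^ ((1 : ℝ) / 6 - 1 / r) := by
    have k1 : ((2 : ℝ) ^ r) ^ ((1 : ℝ) / 6 - 1 / r) ≤ S ^ ((1 : ℝ) / 6 - 1 / r) :=
      Real.rpow_le_rpow (by positivity) h2R (by linarith)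
    refine le_trans ?_ k1
    refine le_of_pow_le_pow_left₀ (n := 6) (by norm_num) (by positivity) ?_
    have k2 : (((2 : ℝ) ^ r) ^ ((1 : ℝ) / 6 - 1 / r)) ^ 6 = 2 ^ (r - 6) := by
      rw [← Real.rpow_natCast _ 6, ← Real.rpow_mul (by positivity), ← Real.rpow_natCast 2 r,
        ← Real.rpow_mul (by norm_num), ← Real.rpow_natCast 2 (r - 6), Nat.cast_sub (by omega)]
      congr 1
      push_cast
      field_simp
    rw [k2]
    have k3 := pow_six r hr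
    have k4 : (r : ℝ) ^ 6 ≤ 2 ^ (r - 54) := by exact_mod_cast k3
    calc (256 * (r : ℝ)) ^ 6 = 2 ^ 48 * (r : ℝ) ^ 6 := by ring
      _ ≤ 2 ^ 48 * 2 ^ (r - 54) := by gcongr
      _ = 2 ^ (r - 6) := by rw [← pow_add]; congr 1; omega
  have h6 : S ^ ((1 : ℝ) / 3) * (256 * r) ≤ S ^ ((1 : ℝ) / 2 - 1 / r) := by
    have e1 : (1 : ℝ) / 2 - 1 / r = 1 / 3 + (1 / 6 - 1 / r) := by ring
    rw [e1, Real.rpow_add hS0]
    gcongr
  have h7 : S ^ ((1 : ℝ) / 3) * (128 * r) ≤ (128 * r) * e := by linarith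
  have h8 : (0 : ℝ) < 128 * r := by linarith
  rw [mul_comm] at h7
  exact le_of_mul_le_mul_left h7 h8

end Pool.Agent.U792.FC
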